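import Mathlib

/-!
Trigonometric polynomials on the torus: Parseval identity, and the moment inequality for powers of
a homogeneous analytic polynomial.
-/

set_option linter.unusedSectionVars false

namespace Pool.Agent.MP_9e8696_an.H39

open Finset MeasureTheory
open scoped ComplexConjugate

variable {ι : Type*} [Fintype ι] [DecidableEq ι]

/-- The torus. -/
abbrev Tor (ι : Type*) := ι → AddCircle (1 : ℝ)

/-- Haar probability measure on the torus. -/
noncomputable def mu (ι : Type*) [Fintype ι] : Measure (Tor ι) :=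
  Measure.pi fun _ => AddCircle.haarAddCircle

instance : IsProbabilityMeasure (mu ι) := by
  unfold mu
  infer_instance

/-- Characters of the torus. -/
noncomputable def e (γ : ι → ℤ) (x : Tor ι) : ℂ := ∏ i, fourier (γ i) (x i)

lemma continuous_e (γ : ι → ℤ) : Continuous (e γ) := by
  unfold e
  fun_prop

lemma e_add (γ δ : ι → ℤ) (x : Tor ι) : e (γ + δ) x = e γ x * e δ x := by
  simp only [e, Pi.add_apply, fourier_add, prod_mul_distrib]

lemma e_neg (γ : ι → ℤ) (x : Tor ι) : e (-γ) x = conj (e γ x) := by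
  simp only [e, Pi.neg_apply, fourier_neg, map_prod]

lemma e_zero (x : Tor ι) : e (0 : ι → ℤ) x = 1 := by
  simp [e]

lemma integral_fourier (k : ℤ) :
    ∫ u : AddCircle (1 : ℝ), fourier k u ∂AddCircle.haarAddCircle = if k = 0 then 1 else 0 := by
  split_ifs with h
  · simp [h]
  · exact integral_eq_zero_of_add_right_eq_neg (μ := AddCircle.haarAddCircle)
      (fourier_add_half_inv_index h one_pos)

lemma integral_e (γ : ι → ℤ) : ∫ x, e γ x ∂(mu ι) = if γ = 0 then 1 else 0 := by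
  unfold e mu
  rw [integral_fintype_prod_eq_prod (fun i (u : AddCircle (1 : ℝ)) => fourier (γ i) u)]
  simp only [integral_fourier]
  split_ifs with h
  · simp [h]
  · obtain ⟨i, hi⟩ := Function.ne_iff.1 h
    exact prod_eq_zero (mem_univ i) (if_neg hi)

lemma integrable_of_continuous {E : Type*} [NormedAddCommGroup E] {g : Tor ι → E}
    (hg : Continuous g) : Integrable g (mu ι) :=
  hg.integrable_of_hasCompactSupport (HasCompactSupport.of_compactSpace g)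

/-- Evaluation of a trigonometric polynomial. -/
noncomputable def ev (p : (ι → ℤ) →₀ ℂ) (x : Tor ι) : ℂ :=
  Finsupp.linearCombination ℂ (fun γ => e γ x) p

lemma ev_eq (p : (ι → ℤ) →₀ ℂ) (x : Tor ι) : ev p x = ∑ γ ∈ p.support, p γ * e γ x := by
  simp [ev, Finsupp.linearCombination_apply, Finsupp.sum]

lemma continuous_ev (p : (ι → ℤ) →₀ ℂ) : Continuous (ev p) := by
  have : ev p = fun x => ∑ γ ∈ p.support, p γ * e γ x := funext (ev_eq p)
  rw [this]
  exact continuous_finsetSum _ fun γ _ => continuous_const.mul (continuous_e γ)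

lemma parseval₂ (p q : (ι → ℤ) →₀ ℂ) :
    ∫ x, ev p x * conj (ev q x) ∂(mu ι) = ∑ γ ∈ q.support, p γ * conj (q γ) := by
  have h : ∀ x, ev p x * conj (ev q x) =
      ∑ δ ∈ q.support, ∑ γ ∈ p.support, p γ * conj (q δ) * e (γ - δ) x := by
    intro x
    rw [ev_eq, ev_eq, map_sum, mul_sum]
    refine sum_congr rfl fun δ _ => ?_
    rw [sum_mul]
    refine sum_congr rfl fun γ _ => ?_
    rw [sub_eq_add_neg, e_add, e_neg, map_mul]
    ring
  simp only [h]
  have hc : ∀ (a : ℂ) (γ : ι → ℤ), Continuous fun x => a * e γ x :=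
    fun a γ => continuous_const.mul (continuous_e γ)
  rw [integral_finsetSum _ fun δ _ => integrable_of_continuous
    (continuous_finsetSum _ fun γ _ => hc _ _)]
  refine sum_congr rfl fun δ _ => ?_
  rw [integral_finsetSum _ fun γ _ => integrable_of_continuous (hc _ _)]
  simp only [integral_const_mul, integral_e, sub_eq_zero, mul_ite, mul_one, mul_zero]
  rw [sum_ite_eq']
  split_ifs with h
  · rfl
  · rw [Finsupp.notMem_support_iff.1 h, zero_mul]

/-- Squared norm of the coefficients. -/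
noncomputable def N (p : (ι → ℤ) →₀ ℂ) : ℝ := ∑ γ ∈ p.support, ‖p γ‖ ^ 2

lemma N_nonneg (p : (ι → ℤ) →₀ ℂ) : 0 ≤ N p := sum_nonneg fun _ _ => sq_nonneg _

lemma parseval (p : (ι → ℤ) →₀ ℂ) : ∫ x, ‖ev p x‖ ^ 2 ∂(mu ι) = N p := by
  have h := parseval₂ p p
  simp only [Complex.mul_conj, Complex.normSq_eq_norm_sq] at h
  rw [integral_complex_ofReal] at h
  unfold N
  exact_mod_cast h

lemma sum_le_N (p : (ι → ℤ) →₀ ℂ) (s : Finset (ι → ℤ)) : ∑ γ ∈ s, ‖p γ‖ ^ 2 ≤ N p := by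
  calc ∑ γ ∈ s, ‖p γ‖ ^ 2 = ∑ γ ∈ s ∩ p.support, ‖p γ‖ ^ 2 := by
        refine (sum_subset inter_subset_left fun γ hγ hγ' => ?_).symm
        have : p γ = 0 := by
          by_contra h
          exact hγ' (mem_inter.2 ⟨hγ, Finsupp.mem_support_iff.2 h⟩)
        simp [this]
    _ ≤ N p := sum_le_sum_of_subset_of_nonneg inter_subset_right fun _ _ _ => sq_nonneg _

/-- Shift of the frequencies. -/
noncomputable def sh (α : ι → ℤ) (p : (ι → ℤ) →₀ ℂ) : (ι → ℤ) →₀ ℂ :=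
  Finsupp.equivMapDomain (Equiv.addRight α) p

lemma sh_apply (α γ : ι → ℤ) (p : (ι → ℤ) →₀ ℂ) : sh α p γ = p (γ - α) := by
  simp [sh, sub_eq_add_neg]

lemma ev_sh (α : ι → ℤ) (p : (ι → ℤ) →₀ ℂ) (x : Tor ι) : ev (sh α p) x = e α x * ev p x := by
  unfold sh
  rw [ev, Finsupp.linearCombination_equivMapDomain, ev_eq, Finsupp.linearCombination_apply,
    Finsupp.sum, mul_sum]
  refine sum_congr rfl fun γ _ => ?_
  simp only [Function.comp, Equiv.coe_addRight, e_add, smul_eq_mul]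
  ring

section Main

variable (A : Finset (ι → ℤ)) (c : (ι → ℤ) → ℂ)

/-- The analytic polynomial with exponent set `A` and coefficients `c`. -/
noncomputable def F (x : Tor ι) : ℂ := ∑ α ∈ A, c α * e α x

/-- Multiplication by `F`. -/
noncomputable def mulF (p : (ι → ℤ) →₀ ℂ) : (ι → ℤ) →₀ ℂ := ∑ α ∈ A, c α • sh α p

/-- Multiplication by the conjugate of `F`. -/
noncomputable def mulB (p : (ι → ℤ) →₀ ℂ) : (ι → ℤ) →₀ ℂ := ∑ α ∈ A, conj (c α) • sh (-α) p

lemma continuous_F : Continuous (F A c) :=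
  continuous_finsetSum _ fun γ _ => continuous_const.mul (continuous_e γ)

lemma ev_mulF (p : (ι → ℤ) →₀ ℂ) (x : Tor ι) : ev (mulF A c p) x = F A c x * ev p x := by
  unfold mulF F
  rw [ev, map_sum, sum_mul]
  refine sum_congr rfl fun α _ => ?_
  rw [map_smul, smul_eq_mul, mul_assoc, ← ev_sh]
  rfl

lemma ev_mulB (p : (ι → ℤ) →₀ ℂ) (x : Tor ι) :
    ev (mulB A c p) x = conj (F A c x) * ev p x := by
  unfold mulB F
  rw [ev, map_sum, map_sum, sum_mul]
  refine sum_congr rfl fun α _ => ?_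
  rw [map_smul, smul_eq_mul, map_mul, mul_assoc, ← e_neg, ← ev_sh]
  rfl

lemma mulF_apply (p : (ι → ℤ) →₀ ℂ) (γ : ι → ℤ) :
    mulF A c p γ = ∑ α ∈ A, c α * p (γ - α) := by
  simp [mulF, Finsupp.finsetSum_apply, sh_apply]

lemma mulB_apply (p : (ι → ℤ) →₀ ℂ) (γ : ι → ℤ) :
    mulB A c p γ = ∑ α ∈ A, conj (c α) * p (γ + α) := by
  simp [mulB, Finsupp.finsetSum_apply, sh_apply]

lemma N_mulF_eq (p : (ι → ℤ) →₀ ℂ) : N (mulF A c p) = N (mulB A c p) := by
  rw [← parseval, ← parseval]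
  simp only [ev_mulF, ev_mulB, norm_mul, Complex.norm_conj]

lemma N_mulF_le {M : ℝ} (hM : ∀ x, ‖F A c x‖ ≤ M) (p : (ι → ℤ) →₀ ℂ) :
    N (mulF A c p) ≤ M ^ 2 * N p := by
  rw [← parseval, ← parseval, ← integral_const_mul]
  refine integral_mono (integrable_of_continuous ((continuous_ev _).norm.pow 2))
    (integrable_of_continuous (continuous_const.mul ((continuous_ev _).norm.pow 2))) fun x => ?_
  simp only [ev_mulF, norm_mul, mul_pow]
  have := hM x
  have h0 := norm_nonneg (F A c x)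
  gcongr

lemma pairing (u : (ι → ℤ) →₀ ℂ) :
    ∑ γ ∈ u.support, mulB A c (mulF A c u) γ * conj (u γ) = (N (mulF A c u) : ℂ) := by
  rw [← parseval₂, ← parseval, ← integral_complex_ofReal]
  refine integral_congr_ae (Filter.Eventually.of_forall fun x => ?_)
  simp only [ev_mulB, ev_mulF]
  have := Complex.mul_conj (F A c x * ev u x)
  rw [Complex.normSq_eq_norm_sq] at this
  rw [← this, map_mul]
  ring

lemma pairing_le (u : (ι → ℤ) →₀ ℂ) :
    N (mulF A c u) ^ 2 ≤ (∑ γ ∈ u.support, ‖mulB A c (mulF A c u) γ‖ ^ 2) * N u := by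
  have h1 : N (mulF A c u) ≤ ∑ γ ∈ u.support, ‖mulB A c (mulF A c u) γ‖ * ‖u γ‖ := by
    have := norm_sum_le u.support fun γ => mulB A c (mulF A c u) γ * conj (u γ)
    rw [pairing, Complex.norm_real, Real.norm_of_nonneg (N_nonneg _)] at this
    simpa only [norm_mul, Complex.norm_conj] using this
  calc N (mulF A c u) ^ 2 ≤ (∑ γ ∈ u.support, ‖mulB A c (mulF A c u) γ‖ * ‖u γ‖) ^ 2 := by
        have := N_nonneg (mulF A c u)
        gcongr
    _ ≤ _ := sum_mul_sq_le_sq_mul_sq _ _ _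

/-- All frequencies are nonnegative with total degree `D`. -/
def Hom (p : (ι → ℤ) →₀ ℂ) (D : ℕ) : Prop :=
  ∀ γ, p γ ≠ 0 → (∀ i, 0 ≤ γ i) ∧ ∑ i, γ i = D

variable {A c}

lemma Hom.mulF {d D : ℕ} (hA : ∀ α ∈ A, (∀ i, 0 ≤ α i) ∧ ∑ i, α i = d) {p : (ι → ℤ) →₀ ℂ}
    (hp : Hom p D) : Hom (mulF A c p) (D + d) := by
  intro γ hγ
  rw [mulF_apply] at hγ
  obtain ⟨α, hα, h⟩ := exists_ne_zero_of_sum_ne_zero hγ
  obtain ⟨h1, h2⟩ := hp _ (right_ne_zero_of_mul h)
  obtain ⟨h3, h4⟩ := hA α hα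
  refine ⟨fun i => ?_, ?_⟩
  · have := h1 i
    have := h3 i
    simp only [Pi.sub_apply] at *
    omega
  · simp only [Pi.sub_apply, sum_sub_distrib] at h2
    push_cast
    omega

/-- Disjoint supports. -/
def Dis (α β : ι → ℤ) : Prop := ∀ i, α i = 0 ∨ β i = 0

instance (α β : ι → ℤ) : Decidable (Dis α β) := by
  unfold Dis
  infer_instance

lemma uniq {α α' β β' : ι → ℤ} (h1 : ∀ i, 0 ≤ α i) (h2 : ∀ i, 0 ≤ α' i) (h3 : ∀ i, 0 ≤ β' i)
    (hs : ∑ i, α i = ∑ i, α' i) (hd : Dis α β) (h : β - α = β' - α') : α = α' := by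
  have hle : ∀ i ∈ (univ : Finset ι), α i ≤ α' i := by
    intro i _
    have := congrFun h i
    simp only [Pi.sub_apply] at this
    have := h1 i
    have := h2 i
    have := h3 i
    rcases hd i with h | h <;> omega
  funext i
  exact (sum_eq_sum_iff_of_le hle).1 hs i (mem_univ i)

lemma mulB_extreme {d D : ℕ} (hA : ∀ α ∈ A, (∀ i, 0 ≤ α i) ∧ ∑ i, α i = d) {p : (ι → ℤ) →₀ ℂ}
    (hp : Hom p D) {α β : ι → ℤ} (hα : α ∈ A) (hd : Dis α β) :
    mulB A c p (β - α) = conj (c α) * p β := by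
  rw [mulB_apply, sum_eq_single_of_mem α hα]
  · simp
  · intro α' hα' hne
    by_contra h
    obtain ⟨h1, -⟩ := hp _ (right_ne_zero_of_mul h)
    refine hne (uniq (hA α hα).1 (hA α' hα').1 h1 ?_ hd (β' := β - α + α') (by simp)).symm
    rw [(hA α hα).2, (hA α' hα').2]

lemma card_le_of_hom {D : ℕ} {β : ι → ℤ} (h1 : ∀ i, 0 ≤ β i) (h2 : ∑ i, β i = D) :
    ((univ.filter fun i => β i ≠ 0).card : ℝ) ≤ D := by
  have : ((univ.filter fun i => β i ≠ 0).card : ℤ) ≤ D := by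
    rw [← h2, card_filter]
    push_cast
    refine sum_le_sum fun i _ => ?_
    have := h1 i
    split_ifs <;> omega
  exact_mod_cast this

lemma disjoint_mass {B : Finset (ι → ℤ)} {w : (ι → ℤ) → ℝ} {τ : ℝ}
    (hτ : ∀ j, ∑ α ∈ B with α j ≠ 0, w α ^ 2 ≤ τ) (hτ0 : 0 ≤ τ) {D : ℕ} {β : ι → ℤ}
    (h1 : ∀ i, 0 ≤ β i) (h2 : ∑ i, β i = D) :
    ∑ α ∈ B, w α ^ 2 - D * τ ≤ ∑ α ∈ B with Dis α β, w α ^ 2 := by
  have h3 : ∑ α ∈ B with ¬ Dis α β, w α ^ 2 ≤
      ∑ j ∈ univ.filter fun i => β i ≠ 0, ∑ α ∈ B with α j ≠ 0, w α ^ 2 := by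
    simp only [sum_filter (s := B)]
    rw [sum_comm]
    refine sum_le_sum fun α _ => ?_
    split_ifs with h
    · exact sum_nonneg fun _ _ => by positivity
    · simp only [Dis, not_forall, not_or] at h
      obtain ⟨j, hj1, hj2⟩ := h
      refine le_trans ?_ (single_le_sum (f := fun j => if α j ≠ 0 then w α ^ 2 else 0)
        (fun _ _ => by positivity) (a := j) (by simpa using hj2))
      simp [hj1]
  have h4 : ∑ j ∈ univ.filter fun i => β i ≠ 0, ∑ α ∈ B with α j ≠ 0, w α ^ 2 ≤ D * τ := by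
    refine (sum_le_card_nsmul _ _ τ fun j _ => hτ j).trans ?_
    rw [nsmul_eq_mul]
    exact mul_le_mul_of_nonneg_right (card_le_of_hom h1 h2) hτ0
  have h5 := sum_filter_add_sum_filter_not B (fun α => Dis α β) fun α => w α ^ 2
  linarith

lemma key {d D : ℕ} (hd : 1 ≤ d) (hA : ∀ α ∈ A, (∀ i, 0 ≤ α i) ∧ ∑ i, α i = d)
    {B : Finset (ι → ℤ)} (hB : B ⊆ A) {w : (ι → ℤ) → ℝ} (hw : ∀ α ∈ B, |w α| ≤ ‖c α‖) {τ : ℝ}
    (hτ : ∀ j, ∑ α ∈ B with α j ≠ 0, w α ^ 2 ≤ τ) (hτ0 : 0 ≤ τ)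
    {p : (ι → ℤ) →₀ ℂ} (hp : Hom p D) (s : Finset (ι → ℤ)) (hs : ∀ γ ∈ s, ∀ i, 0 ≤ γ i) :
    ∑ γ ∈ s, ‖mulB A c p γ‖ ^ 2 + (∑ α ∈ B, w α ^ 2 - D * τ) * N p ≤ N (mulB A c p) := by
  set E : Finset ((ι → ℤ) × (ι → ℤ)) := (p.support ×ˢ B).filter fun x => Dis x.2 x.1 with hE
  have hinj : Set.InjOn (fun x : (ι → ℤ) × (ι → ℤ) => x.1 - x.2) E := by
    rintro ⟨β, α⟩ hx ⟨β', α'⟩ hy h
    simp only [hE, coe_filter, mem_product, Finsupp.mem_support_iff, Set.mem_ofPred_eq] at hx hy h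
    have h1 : α = α' := uniq (hA α (hB hx.1.2)).1 (hA α' (hB hy.1.2)).1 (hp β' hy.1.1).1
      (by rw [(hA α (hB hx.1.2)).2, (hA α' (hB hy.1.2)).2]) hx.2 h
    subst h1
    simp only [sub_left_inj] at h
    simp [h]
  have hdisj : Disjoint s (E.image fun x => x.1 - x.2) := by
    rw [disjoint_left]
    intro γ hγ hγ'
    obtain ⟨⟨β, α⟩, hx, rfl⟩ := mem_image.1 hγ'
    simp only [hE, mem_filter, mem_product, Finsupp.mem_support_iff] at hx
    obtain ⟨h1, h2⟩ := hA α (hB hx.1.2)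
    have h3 : ∀ i ∈ (univ : Finset ι), α i = 0 := by
      intro i _
      have := hs _ hγ i
      have := h1 i
      simp only [Pi.sub_apply] at *
      rcases hx.2 i with h | h <;> omega
    rw [sum_eq_zero h3] at h2
    omega
  have h1 := sum_le_N (mulB A c p) (s ∪ E.image fun x => x.1 - x.2)
  rw [sum_union hdisj, sum_image hinj] at h1
  have h2 : ∑ x ∈ E, ‖mulB A c p (x.1 - x.2)‖ ^ 2 =
      ∑ β ∈ p.support, (∑ α ∈ B with Dis α β, ‖c α‖ ^ 2) * ‖p β‖ ^ 2 := by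
    rw [hE, sum_filter, sum_product]
    refine sum_congr rfl fun β _ => ?_
    rw [sum_filter, sum_mul]
    refine sum_congr rfl fun α hα => ?_
    split_ifs with h
    · rw [mulB_extreme hA hp (hB hα) h, norm_mul, Complex.norm_conj, mul_pow]
    · simp
  have h3 : (∑ α ∈ B, w α ^ 2 - D * τ) * N p ≤
      ∑ β ∈ p.support, (∑ α ∈ B with Dis α β, ‖c α‖ ^ 2) * ‖p β‖ ^ 2 := by
    rw [N, mul_sum]
    refine sum_le_sum fun β hβ => ?_
    obtain ⟨h4, h5⟩ := hp β (Finsupp.mem_support_iff.1 hβ)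
    refine mul_le_mul_of_nonneg_right ((disjoint_mass hτ hτ0 h4 h5).trans ?_) (sq_nonneg _)
    refine sum_le_sum fun α hα => ?_
    rw [← sq_abs]
    exact pow_le_pow_left₀ (abs_nonneg _) (hw α (mem_filter.1 hα).1) 2
  linarith

variable (A c) in
/-- The powers of `F`. -/
noncomputable def pw : ℕ → (ι → ℤ) →₀ ℂ
  | 0 => Finsupp.single 0 1
  | L + 1 => mulF A c (pw L)

lemma hom_pw {d : ℕ} (hA : ∀ α ∈ A, (∀ i, 0 ≤ α i) ∧ ∑ i, α i = d) (L : ℕ) :
    Hom (pw A c L) (L * d) := by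
  induction L with
  | zero =>
    intro γ hγ
    have : γ = 0 := by
      by_contra h
      exact hγ (Finsupp.single_eq_of_ne h)
    simp [this]
  | succ L ih =>
    rw [Nat.succ_mul]
    exact ih.mulF hA

lemma N_pw_zero : N (pw A c 0) = 1 := by
  simp [N, pw]

lemma ratio {d : ℕ} (hd : 1 ≤ d) (hA : ∀ α ∈ A, (∀ i, 0 ≤ α i) ∧ ∑ i, α i = d)
    {B : Finset (ι → ℤ)} (hB : B ⊆ A) {w : (ι → ℤ) → ℝ} (hw : ∀ α ∈ B, |w α| ≤ ‖c α‖) {τ : ℝ}
    (hτ : ∀ j, ∑ α ∈ B with α j ≠ 0, w α ^ 2 ≤ τ) (hτ0 : 0 ≤ τ) (L : ℕ) :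
    ((L + 1) * (∑ α ∈ B, w α ^ 2 - d * τ * L / 2)) * N (pw A c L) ≤ N (pw A c (L + 1)) := by
  induction L with
  | zero =>
    have := key hd hA hB hw hτ hτ0 (hom_pw (c := c) hA 0) ∅ (by simp)
    rw [← N_mulF_eq] at this
    simpa [pw] using this
  | succ L ih =>
    have h1 := key hd hA hB hw hτ hτ0 (hom_pw (c := c) hA (L + 1)) (pw A c L).support
      fun γ hγ => (hom_pw (c := c) hA L γ (Finsupp.mem_support_iff.1 hγ)).1
    rw [← N_mulF_eq] at h1
    have h2 := pairing_le A c (pw A c L)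
    change N (pw A c (L + 1)) ^ 2 ≤
      (∑ γ ∈ (pw A c L).support, ‖mulB A c (pw A c (L + 1)) γ‖ ^ 2) * N (pw A c L) at h2
    change _ ≤ N (pw A c (L + 1 + 1)) at h1
    set X := ∑ γ ∈ (pw A c L).support, ‖mulB A c (pw A c (L + 1)) γ‖ ^ 2 with hX
    have hX0 : 0 ≤ X := sum_nonneg fun _ _ => sq_nonneg _
    set V := ∑ α ∈ B, w α ^ 2
    set a := N (pw A c L)
    set b := N (pw A c (L + 1))
    have ha : 0 ≤ a := N_nonneg _
    have hb : 0 ≤ b := N_nonneg _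
    have h3 : ((L + 1) * (V - d * τ * L / 2)) * b ≤ X := by
      rcases ha.eq_or_lt with h | h
      · have : b = 0 := by
          rw [← h, mul_zero] at h2
          exact pow_eq_zero_iff (two_ne_zero) |>.1 (le_antisymm h2 (sq_nonneg _))
        rw [this, mul_zero]
        exact hX0
      · refine le_of_mul_le_mul_right ?_ h
        nlinarith [mul_le_mul_of_nonneg_right ih hb]
    push_cast at h1 ⊢
    nlinarith

/-- Main inequality: `V ^ 2 ≤ 2 d τ M ^ 2`. -/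
theorem main {d : ℕ} (hd : 1 ≤ d) (hA : ∀ α ∈ A, (∀ i, 0 ≤ α i) ∧ ∑ i, α i = d)
    {B : Finset (ι → ℤ)} (hB : B ⊆ A) {w : (ι → ℤ) → ℝ} (hw : ∀ α ∈ B, |w α| ≤ ‖c α‖) {τ : ℝ}
    (hτ : ∀ j, ∑ α ∈ B with α j ≠ 0, w α ^ 2 ≤ τ) (hτ0 : 0 ≤ τ) {M : ℝ}
    (hM : ∀ x, ‖F A c x‖ ≤ M) : (∑ α ∈ B, w α ^ 2) ^ 2 ≤ 2 * d * τ * M ^ 2 := by
  set V := ∑ α ∈ B, w α ^ 2 with hV
  have hV0 : 0 ≤ V := sum_nonneg fun _ _ => sq_nonneg _
  rcases hV0.eq_or_lt with h0 | h0
  · rw [← h0, zero_pow two_ne_zero]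
    positivity
  have hd' : (1 : ℝ) ≤ d := by exact_mod_cast hd
  have hpos : ∀ L : ℕ, d * τ * L ≤ V → 0 < N (pw A c L) := by
    intro L
    induction L with
    | zero => intro _; rw [N_pw_zero]; exact one_pos
    | succ L ih =>
      intro h
      push_cast at h
      have h1 : d * τ * L ≤ V := by nlinarith [mul_nonneg (le_trans zero_le_one hd') hτ0]
      refine lt_of_lt_of_le ?_ (ratio hd hA hB hw hτ hτ0 L)
      have := ih h1
      have h2 : 0 < V - d * τ * L / 2 := by linarith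
      positivity
  have hbd : ∀ L : ℕ, d * τ * L ≤ V → (L + 1) * V ≤ 2 * M ^ 2 := by
    intro L h
    have h1 := ratio hd hA hB hw hτ hτ0 L
    have h2 : N (pw A c (L + 1)) ≤ M ^ 2 * N (pw A c L) := N_mulF_le A c hM _
    have h3 := le_of_mul_le_mul_right (h1.trans h2) (hpos L h)
    have h4 : (0 : ℝ) ≤ L + 1 := by positivity
    nlinarith [mul_le_mul_of_nonneg_left h h4]
  rcases hτ0.eq_or_lt with ht | ht
  · exfalso
    obtain ⟨L, hL⟩ := exists_nat_gt (2 * M ^ 2 / V)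
    have := hbd L (by rw [← ht]; simpa using hV0)
    rw [div_lt_iff₀ h0] at hL
    nlinarith
  · have hdt : 0 < d * τ := by positivity
    have h1 := Nat.floor_le (div_nonneg hV0 hdt.le)
    have h2 := Nat.lt_floor_add_one (V / (d * τ))
    rw [le_div_iff₀ hdt] at h1
    rw [div_lt_iff₀ hdt] at h2
    have h3 := hbd ⌊V / (d * τ)⌋₊ (by linarith)
    nlinarith [mul_le_mul_of_nonneg_right h3 hdt.le]

end Main

end Pool.Agent.MP_9e8696_an.H39
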