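import Mathlib
import Pool.Agent.MP_9e8696_an.H39.Torus

/-!
From polynomials bounded on the polytorus to the coefficient inequality.
-/

set_option linter.unusedSectionVars false

namespace Pool.Agent.MP_9e8696_an.H39

open Finset MeasureTheory

variable {ι : Type*} [Fintype ι] [DecidableEq ι]

/-- Exponent vector as an integer frequency. -/
def toZ (m : ι →₀ ℕ) : ι → ℤ := fun i => (m i : ℤ)

lemma toZ_injective : Function.Injective (toZ (ι := ι)) := by
  intro m m' h
  ext i
  have := congrFun h i
  simpa [toZ] using this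

lemma fourier_pow (k : ℕ) (u : AddCircle (1 : ℝ)) : fourier 1 u ^ k = fourier (k : ℤ) u := by
  induction k with
  | zero => simp
  | succ k ih => rw [pow_succ, ih, Nat.cast_succ, fourier_add]

lemma fourier_add_arg (k : ℤ) (u v : AddCircle (1 : ℝ)) :
    fourier k (u + v) = fourier k u * fourier k v := by
  simp only [fourier_apply, smul_add, AddCircle.toCircle_add, Circle.coe_mul]

lemma fourier_sum (m : ι → ℤ) (u : AddCircle (1 : ℝ)) :
    ∏ i, fourier (m i) u = fourier (∑ i, m i) u := by
  induction (univ : Finset ι) using Finset.induction_on with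
  | empty => simp
  | insert a s ha ih => rw [prod_insert ha, sum_insert ha, ih, fourier_add]

lemma eval_rot (q : MvPolynomial ι ℂ) (x : Tor ι) (u : AddCircle (1 : ℝ)) :
    MvPolynomial.eval (fun i => fourier 1 (x i + u)) q =
      ∑ m ∈ q.support, q.coeff m * e (toZ m) x * fourier (∑ i, toZ m i) u := by
  rw [MvPolynomial.eval_eq']
  refine sum_congr rfl fun m _ => ?_
  rw [mul_assoc, ← fourier_sum, e, ← prod_mul_distrib]
  congr 1
  refine prod_congr rfl fun i _ => ?_
  rw [fourier_pow, fourier_add_arg]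
  rfl

lemma hom_part_le (q : MvPolynomial ι ℂ) {M : ℝ}
    (hM : ∀ z : ι → ℂ, (∀ i, ‖z i‖ = 1) → ‖MvPolynomial.eval z q‖ ≤ M) (d : ℤ) (x : Tor ι) :
    ‖∑ m ∈ q.support with ∑ i, toZ m i = d, q.coeff m * e (toZ m) x‖ ≤ M := by
  have hn : ∀ (k : ℤ) (u : AddCircle (1 : ℝ)), ‖fourier k u‖ = 1 := by
    intro k u
    simp [fourier_apply]
  have h1 : ∑ m ∈ q.support with ∑ i, toZ m i = d, q.coeff m * e (toZ m) x =
      ∫ u : AddCircle (1 : ℝ), fourier (-d) u * MvPolynomial.eval (fun i => fourier 1 (x i + u)) q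
        ∂AddCircle.haarAddCircle := by
    have h2 : ∀ u : AddCircle (1 : ℝ),
        fourier (-d) u * MvPolynomial.eval (fun i => fourier 1 (x i + u)) q =
        ∑ m ∈ q.support, q.coeff m * e (toZ m) x * fourier (∑ i, toZ m i - d) u := by
      intro u
      rw [eval_rot, mul_sum]
      refine sum_congr rfl fun m _ => ?_
      rw [sub_eq_add_neg, fourier_add]
      ring
    simp only [h2]
    have hc : ∀ (a : ℂ) (k : ℤ), Integrable (fun u : AddCircle (1 : ℝ) => a * fourier k u)
        AddCircle.haarAddCircle := fun a k =>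
      Continuous.integrable_of_hasCompactSupport (by fun_prop) (HasCompactSupport.of_compactSpace _)
    rw [integral_finsetSum _ fun m _ => hc _ _, sum_filter]
    refine sum_congr rfl fun m _ => ?_
    rw [integral_const_mul, integral_fourier]
    simp only [sub_eq_zero]
    split_ifs <;> simp
  rw [h1]
  have := norm_integral_le_of_norm_le_const (μ := AddCircle.haarAddCircle (T := 1)) (C := M)
    (f := fun u : AddCircle (1 : ℝ) =>
      fourier (-d) u * MvPolynomial.eval (fun i => fourier 1 (x i + u)) q)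
    (Filter.Eventually.of_forall fun u => by
      rw [norm_mul, hn, one_mul]
      exact hM _ fun i => hn _ _)
  simpa using this

/-- The exponent vector of the multilinear monomial attached to a set. -/
noncomputable def ind (S : Finset ι) : ι →₀ ℕ := ∑ i ∈ S, Finsupp.single i 1

lemma ind_apply (S : Finset ι) (j : ι) : ind S j = if j ∈ S then 1 else 0 := by
  simp [ind, Finsupp.finsetSum_apply, Finsupp.single_apply]

lemma toZ_ind_injective : Function.Injective fun S : Finset ι => toZ (ind S) := by
  intro S T h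
  have h' := toZ_injective h
  ext j
  have := DFunLike.congr_fun h' j
  simp only [ind_apply] at this
  by_cases h1 : j ∈ S <;> by_cases h2 : j ∈ T <;> simp_all

lemma sum_toZ_ind (S : Finset ι) : ∑ i, toZ (ind S) i = S.card := by
  simp [toZ, ind_apply]

/-- The coefficient form of the polytorus inequality. -/
theorem coeff_bound {d : ℕ} (hd : 1 ≤ d) (a : Finset ι → ℝ) (q : MvPolynomial ι ℂ)
    (hq : ∀ S : Finset ι, S.card = d → |a S| ≤ ‖q.coeff (ind S)‖) {M : ℝ}
    (hM : ∀ z : ι → ℂ, (∀ i, ‖z i‖ = 1) → ‖MvPolynomial.eval z q‖ ≤ M) {τ : ℝ} (hτ0 : 0 ≤ τ)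
    (hτ : ∀ j, ∑ S with S.card = d ∧ j ∈ S, a S ^ 2 ≤ τ) :
    (∑ S with S.card = d, a S ^ 2) ^ 2 ≤ 2 * d * τ * M ^ 2 := by
  set U : Finset (Finset ι) := univ.filter fun S => S.card = d with hU
  set T : Finset (ι →₀ ℕ) := (q.support ∪ U.image ind).filter fun m => ∑ i, toZ m i = d with hT
  set c : (ι → ℤ) → ℂ := fun α => q.coeff (Finsupp.equivFunOnFinite.symm fun i => (α i).toNat)
    with hc
  have hcz : ∀ m, c (toZ m) = q.coeff m := by
    intro m
    simp only [hc]
    congr 1
    ext i
    simp [toZ]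
  set w : (ι → ℤ) → ℝ := fun α => a (univ.filter fun i => α i ≠ 0) with hw
  have hwz : ∀ S, w (toZ (ind S)) = a S := by
    intro S
    simp only [hw]
    congr 1
    ext i
    simp [toZ, ind_apply]
  have hA : ∀ α ∈ T.image toZ, (∀ i, 0 ≤ α i) ∧ ∑ i, α i = d := by
    intro α hα
    obtain ⟨m, hm, rfl⟩ := mem_image.1 hα
    exact ⟨fun i => by simp [toZ], (mem_filter.1 hm).2⟩
  have hB : U.image (fun S => toZ (ind S)) ⊆ T.image toZ := by
    intro α hα
    obtain ⟨S, hS, rfl⟩ := mem_image.1 hα
    refine mem_image_of_mem _ (mem_filter.2 ⟨mem_union_right _ (mem_image_of_mem _ hS), ?_⟩)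
    rw [sum_toZ_ind, (mem_filter.1 hS).2]
  have hF : ∀ x, ‖F (T.image toZ) c x‖ ≤ M := by
    intro x
    rw [F, sum_image toZ_injective.injOn]
    simp only [hcz]
    convert hom_part_le q hM d x using 2
    refine (sum_subset (filter_subset_filter _ subset_union_left) fun m hm hm' => ?_).symm
    have : q.coeff m = 0 := by
      by_contra h
      exact hm' (mem_filter.2 ⟨MvPolynomial.mem_support_iff.2 h, (mem_filter.1 hm).2⟩)
    rw [this, zero_mul]
  have h := main (c := c) hd hA hB (w := w) (τ := τ) (M := M) ?_ ?_ hτ0 hF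
  · rw [sum_image toZ_ind_injective.injOn] at h
    simpa only [hwz] using h
  · intro α hα
    obtain ⟨S, hS, rfl⟩ := mem_image.1 hα
    rw [hwz, hcz]
    exact hq S (mem_filter.1 hS).2
  · intro j
    rw [sum_filter, sum_image toZ_ind_injective.injOn, hU, sum_filter]
    refine le_trans (le_of_eq ?_) (hτ j)
    rw [sum_filter]
    refine sum_congr rfl fun S _ => ?_
    simp only [hwz]
    by_cases h1 : S.card = d <;> by_cases h2 : j ∈ S <;> simp [h1, h2, toZ, ind_apply]

end Pool.Agent.MP_9e8696_an.H39
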